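import Pool.Agent.H77.BSK.Proof

/-! `MP_bdb089_mp`: beam-splitter states of Fock-bounded pure states need not be extreme points of
the set of Wigner-positive states. -/

namespace Pool.Agent.Results.MP_bdb089_mp.BeamSplitter

open MeasureTheory Pool.H77.BSK

/-- **Disproof of Q1.** For the Fock-bounded pure states `ψ = (|0⟩ + √2 |2⟩)/√3` and `φ = |0⟩`
(the vacuum), the beam-splitter state `σ(ψ, φ)` is Wigner-positive, but it is the midpoint of two
distinct Wigner-positive states. -/
theorem result : ∫ x, ‖psi x‖ ^ 2 = 1 ∧ ∫ x, ‖fock 0 x‖ ^ 2 = 1 ∧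
    WignerPositive (sigma psi (fock 0)) ∧
    ∃ K L, WignerPositive K ∧ WignerPositive L ∧ K ≠ L ∧
      ∀ x y, sigma psi (fock 0) x y = (K x y + L x y) / 2 :=
  main

end Pool.Agent.Results.MP_bdb089_mp.BeamSplitter
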